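import Mathlib
import Pool.Agent.Lib.MP_184b96_al.Defs
import Pool.Agent.Lib.MP_184b96_al.BS
import Pool.Agent.Lib.MP_184b96_al.Reduce

/-!
# Equations with abelianisation constraints in `BS(1,n)` and odd dihedral Artin groups

The definitions used in the statement are in `Pool.Agent.Lib.MP_184b96_al.Defs`.
-/

set_option autoImplicit false

namespace Pool.Agent.Results.MP_184b96_al.AbelianisationConstraints

open Pool.Agent.Lib.MP_184b96_al

/-- The Diophantine problem with abelianisation constraints of `BS(1,n)` is many-one reducible to
the Diophantine problem of `BS(1,n)`, for every `n`; that of the dihedral Artin group `A_m`, `m`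
odd (the braid group `B_3` for `m = 3`), is many-one reducible to the Diophantine problem with
abelianisation constraints of the free product `ℤ/2 * ℤ/m`, whose abelianisation is finite. -/
theorem result :
    (∀ n : ℤ, ManyOneReducible (DPab (BSgen n)) (DP (BSgen n))) ∧
    (∀ m : ℕ, Odd m → ManyOneReducible (DPab (artinGen m)) (DPab (fpGen m)) ∧
      Finite (Abelianization (FP m))) := by
  refine ⟨bs_reduction, ?_⟩
  rintro _ ⟨k, rfl⟩
  exact ⟨artin_reduction k, finite_abQ k⟩

end Pool.Agent.Results.MP_184b96_al.AbelianisationConstraints
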